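import Pool.Agent.H3.FQ.POP

/-!
# TR3q, POPq: explicit thresholds

The proofs of `FQ.TR3` and `FQ.POP` with explicit thresholds: `TR3` needs `8 C t + 4 ≤ q` (`EN2`) and `11000 C^2 ≤ q` (its step `hq3`; `2^9 C ≤ q` is also enough). `POPq`: the proof of `POP` with `TR3q`.
(Copy the proofs, change the quantifiers.)
-/

set_option autoImplicit false

namespace Pool.Agent.H3.FQ

open Classical

theorem TR3q (C t q : ℕ) (v : ℕ → ℂ) (hC : 1 ≤ C) (ht : 1 ≤ t) (h1 : 11000 * C ^ 2 ≤ q) (h2 : 8 * C * t + 4 ≤ q) (hv : Chain q v)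
    (hD : (dD q v).card ≤ C * q) : t * q ^ 4 ≤ 2 ^ 20 * C ^ 2 * ∑ w ∈ Vs q (8 * C * t), (trip q v (8 * C * t) w).card := by
  have hqC : 11000 * C ^ 2 ≤ q := h1
  clear h1
  obtain ⟨G, hG⟩ : ∃ G, G = 8 * C * t := ⟨_, rfl⟩
  have h1 := EN2 C t q v hv hC ht hD (by omega)
  rw [← hG] at h1 ⊢
  have hV := TR3_Vs q G
  have hCR : (1 : ℝ) ≤ (C : ℝ) := by exact_mod_cast hC
  have htR : (1 : ℝ) ≤ (t : ℝ) := by exact_mod_cast ht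
  have hqR : (11000 : ℝ) * (C : ℝ) ^ 2 ≤ (q : ℝ) := by
    exact_mod_cast hqC
  have hq0 : (0 : ℝ) ≤ (q : ℝ) := Nat.cast_nonneg q
  have hGR : (G : ℝ) = 8 * C * t := by
    rw [hG]
    push_cast
    ring
  obtain ⟨a, ha⟩ : ∃ a : ℝ, a = q / (64 * C) := ⟨_, rfl⟩
  have ha0 : 0 ≤ a := by
    rw [ha]
    positivity
  have hsum : ∑ w ∈ Vs q G, ((3 * a ^ 2 * ((Nb q v G w).card : ℝ) - 2 * a ^ 3) / 2 - 108) ≤
      ∑ w ∈ Vs q G, 6 * ((trip q v G w).card : ℝ) :=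
    Finset.sum_le_sum fun w hw => TR3_one _ _ (TR3a q v hv G w hw) a ha0
  have hl : ∑ w ∈ Vs q G, ((3 * a ^ 2 * ((Nb q v G w).card : ℝ) - 2 * a ^ 3) / 2 - 108) =
      3 * a ^ 2 / 2 * ∑ w ∈ Vs q G, ((Nb q v G w).card : ℝ) -
        (a ^ 3 + 108) * ((Vs q G).card : ℝ) := by
    rw [Finset.mul_sum]
    have h2 : (a ^ 3 + 108) * ((Vs q G).card : ℝ) = ∑ w ∈ Vs q G, (a ^ 3 + 108) := by
      rw [Finset.sum_const, nsmul_eq_mul, mul_comm]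
    rw [h2, ← Finset.sum_sub_distrib]
    refine Finset.sum_congr rfl fun w _ => ?_
    ring
  rw [hl, ← Finset.mul_sum] at hsum
  have h1R : (t : ℝ) * (q : ℝ) ^ 2 ≤ 8 * ∑ w ∈ Vs q G, ((Nb q v G w).card : ℝ) := by
    exact_mod_cast h1
  have hVR : ((Vs q G).card : ℝ) ≤ (q : ℝ) * (8 * C * t) := by
    rw [← hGR]
    exact_mod_cast hV
  obtain ⟨N, hN⟩ : ∃ N : ℝ, N = ∑ w ∈ Vs q G, ((Nb q v G w).card : ℝ) := ⟨_, rfl⟩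
  obtain ⟨W, hW⟩ : ∃ W : ℝ, W = ((Vs q G).card : ℝ) := ⟨_, rfl⟩
  obtain ⟨Z, hZ⟩ : ∃ Z : ℝ, Z = ∑ w ∈ Vs q G, ((trip q v G w).card : ℝ) := ⟨_, rfl⟩
  rw [← hN, ← hW, ← hZ] at hsum
  rw [← hN] at h1R
  rw [← hW] at hVR
  have hs1 : 3 * a ^ 2 / 2 * (t * q ^ 2 / 8) ≤ 3 * a ^ 2 / 2 * N :=
    mul_le_mul_of_nonneg_left (by linarith) (by positivity)
  have hs2 : (a ^ 3 + 108) * W ≤ (a ^ 3 + 108) * (q * (8 * C * t)) :=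
    mul_le_mul_of_nonneg_left hVR (by positivity)
  have hs3 : 3 * a ^ 2 / 2 * (t * q ^ 2 / 8) - (a ^ 3 + 108) * (q * (8 * C * t)) ≤ 6 * Z := by
    linarith
  have hC0 : (C : ℝ) ≠ 0 := by positivity
  have hs4 : 3 * a ^ 2 / 2 * (t * q ^ 2 / 8) - (a ^ 3 + 108) * (q * (8 * C * t)) =
      t * q ^ 4 / (65536 * C ^ 2) - 864 * C * t * q := by
    rw [ha]
    field_simp
    ring
  rw [hs4] at hs3
  have hs5 : 2 * (t * q ^ 4) - 131072 * C ^ 2 * (864 * C * t * q) ≤ 131072 * C ^ 2 * (6 * Z) := by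
    have h2 : 131072 * (C : ℝ) ^ 2 * (t * q ^ 4 / (65536 * C ^ 2) - 864 * C * t * q) =
        2 * (t * q ^ 4) - 131072 * C ^ 2 * (864 * C * t * q) := by
      field_simp
      ring
    rw [← h2]
    exact mul_le_mul_of_nonneg_left hs3 (by positivity)
  have hq3 : 131072 * 864 * (C : ℝ) ^ 3 ≤ q ^ 3 := by
    have h2 : ((11000 : ℝ) * C ^ 2) ^ 3 ≤ q ^ 3 := pow_le_pow_left₀ (by positivity) hqR 3
    have h3 : (C : ℝ) ^ 3 ≤ C ^ 6 := pow_le_pow_right₀ hCR (by norm_num)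
    nlinarith [pow_pos (by linarith : (0 : ℝ) < (C : ℝ)) 3]
  have hs6 : 131072 * C ^ 2 * (864 * C * t * q) ≤ t * (q : ℝ) ^ 4 := by
    have h2 : (t * q : ℝ) * (131072 * 864 * (C : ℝ) ^ 3) ≤ (t * q : ℝ) * q ^ 3 :=
      mul_le_mul_of_nonneg_left hq3 (by positivity)
    linarith
  have hZ0 : 0 ≤ Z := by
    rw [hZ]
    positivity
  have hfin : (t : ℝ) * (q : ℝ) ^ 4 ≤ 2 ^ 20 * C ^ 2 * Z := by
    have h2 : 0 ≤ (C : ℝ) ^ 2 * Z := by positivity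
    linarith
  rw [hZ] at hfin
  exact_mod_cast hfin

private theorem POPq_sqrt (K q : ℕ) (hK : 0 < K) : ∃ s : ℕ, K * s ^ 2 ≤ q ^ 2 ∧ q ^ 2 < K * (s + 1) ^ 2 := by
  refine ⟨Nat.sqrt (q ^ 2 / K), ?_, ?_⟩
  · have h := Nat.sqrt_le' (q ^ 2 / K)
    calc K * Nat.sqrt (q ^ 2 / K) ^ 2 ≤ K * (q ^ 2 / K) := Nat.mul_le_mul_left _ h
      _ ≤ q ^ 2 := Nat.mul_div_le _ _
  · have h := Nat.lt_succ_sqrt' (q ^ 2 / K)
    have h2 := (Nat.div_lt_iff_lt_mul hK).1 h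
    rw [mul_comm]
    exact h2

private theorem POPq_arith (C t q m s P S : ℕ) (hq : 1 ≤ q) (h3 : t * q ^ 4 ≤ 2 ^ 20 * C ^ 2 * S)
    (hS : S ≤ m * (q * (8 * C * t)) ^ 3 + q ^ 2 * (8 * C * t) * s ^ 2 + P * q ^ 4)
    (hm : m * 2 ^ 30 * C ^ 5 * t ^ 2 ≤ q) (hs : 2 ^ 25 * C ^ 3 * s ^ 2 ≤ q ^ 2) :
    8 * C * t ≤ 2 ^ 25 * C ^ 3 * P := by
  have h4 : t * q ^ 4 ≤ 2 ^ 20 * C ^ 2 * (m * (q * (8 * C * t)) ^ 3 + q ^ 2 * (8 * C * t) * s ^ 2 + P * q ^ 4) :=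
    h3.trans (Nat.mul_le_mul_left _ hS)
  have h5 : m * 2 ^ 30 * C ^ 5 * t ^ 2 * (t * q ^ 3) ≤ q * (t * q ^ 3) := Nat.mul_le_mul_right _ hm
  have h6 : 2 ^ 25 * C ^ 3 * s ^ 2 * (t * q ^ 2) ≤ q ^ 2 * (t * q ^ 2) := Nat.mul_le_mul_right _ hs
  have h7 : t * q ^ 4 ≤ (2 ^ 22 * C ^ 2 * P) * q ^ 4 := by
    have e1 : 4 * (2 ^ 20 * C ^ 2 * (m * (q * (8 * C * t)) ^ 3 + q ^ 2 * (8 * C * t) * s ^ 2 + P * q ^ 4)) =
        2 * (m * 2 ^ 30 * C ^ 5 * t ^ 2 * (t * q ^ 3)) + 2 ^ 25 * C ^ 3 * s ^ 2 * (t * q ^ 2) +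
          (2 ^ 22 * C ^ 2 * P) * q ^ 4 := by ring
    have e2 : q * (t * q ^ 3) = t * q ^ 4 := by ring
    have e3 : q ^ 2 * (t * q ^ 2) = t * q ^ 4 := by ring
    rw [e2] at h5
    rw [e3] at h6
    have h8 := Nat.mul_le_mul_left 4 h4
    rw [e1] at h8
    linarith
  have h8 : t ≤ 2 ^ 22 * C ^ 2 * P := Nat.le_of_mul_le_mul_right h7 (by positivity)
  calc 8 * C * t ≤ 8 * C * (2 ^ 22 * C ^ 2 * P) := Nat.mul_le_mul_left _ h8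
    _ = 2 ^ 25 * C ^ 3 * P := by ring

theorem POPq (C t q : ℕ) (v : ℕ → ℂ) (m : ℕ) (hC : 1 ≤ C) (ht : 1 ≤ t) (h1 : 11000 * C ^ 2 ≤ q) (h2 : 8 * C * t + 4 ≤ q) (hv : Chain q v)
    (hD : (dD q v).card ≤ C * q) (hR : RR q v (8 * C * t) m) (hm : m * 2 ^ 30 * C ^ 5 * t ^ 2 ≤ q) :
    ∃ Psi : Finset (ℂ × ℂ), (∀ g ∈ Psi, ‖g.1‖ = 1 ∧ q ^ 2 ≤ 2 ^ 25 * C ^ 3 * (dom q v (8 * C * t) g).card ^ 2) ∧
      8 * C * t ≤ 2 ^ 25 * C ^ 3 * Psi.card := by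
  have hqb : 1 ≤ q := by omega
  have h3 := TR3q C t q v hC ht h1 h2 hv hD
  have hK : 0 < 2 ^ 25 * C ^ 3 := by positivity
  obtain ⟨s, hs1, hs2⟩ := POPq_sqrt (2 ^ 25 * C ^ 3) q hK
  obtain ⟨Psi, hP, hP2⟩ := POPa hv (8 * C * t) m s hR
  refine ⟨Psi, fun g hg => ⟨(hP g hg).1, ?_⟩, ?_⟩
  · have h4 : s + 1 ≤ (dom q v (8 * C * t) g).card := (hP g hg).2
    exact hs2.le.trans (Nat.mul_le_mul_left _ (Nat.pow_le_pow_left h4 2))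
  · exact POPq_arith C t q m s Psi.card _ hqb h3 hP2 hm hs1

end Pool.Agent.H3.FQ
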